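import Pool.Agent.H1.Mono.HeadAvg

/-!
# Negation-limited circuits for satisfiability: almost as many negations as are ever useful
-/

open Finset Pool.Agent.H1.Mono

namespace Pool.Agent.H40.NG

/-- circuits with at most `min (log₂ (2mn), √n) - D - q` negated gates -/
theorem neg_main : ∀ n m : ℕ, 2 ≤ n → 2 ≤ m → ∀ D : ℝ, 0 < D →
    ∃ (κ : Type) (_ : Fintype κ) (_ : Nonempty κ) (P U : κ → Formula n m),
      (∀ k, Satisfiable (P k)) ∧ (∀ k, ¬ Satisfiable (U k)) ∧
      (∀ k, Narrow (Nat.log 2 m) (P k)) ∧ (∀ k, Narrow (Nat.log 2 m) (U k)) ∧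
      ∀ (s q : ℕ) (C : Circuit (Fin m × (Fin n × Bool)) s),
        (C.negs : ℝ) + q ≤ min (Real.logb 2 (2 * m * n)) (Real.sqrt n) - D →
        (Fintype.card κ : ℝ) / (n * 2 ^ q) ≤
          (Nat.card {k // C.Accepts (P k)} : ℝ) - Nat.card {k // C.Accepts (U k)} →
        (2 : ℝ) ^ ((1 - 67 * Real.logb 2 n / D) * n) ≤ s := by
  intro n m hn2 hm2 D hD
  have hnR : (2 : ℝ) ≤ n := by exact_mod_cast hn2
  have hmpos : 0 < m := by omega
  have hmR : (0 : ℝ) < m := by exact_mod_cast hmpos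
  set x := Real.logb 2 n with hx
  have hx1 : 1 ≤ x := by
    rw [hx, Real.le_logb_iff_rpow_le (by norm_num) (by linarith), Real.rpow_one]
    exact hnR
  set B := min (Real.logb 2 (2 * m * n)) (Real.sqrt n) - D with hB
  -- a family for the cases in which the bound says nothing
  have htriv : ∃ (κ : Type) (_ : Fintype κ) (_ : Nonempty κ) (P U : κ → Formula n m),
      (∀ k, Satisfiable (P k)) ∧ (∀ k, ¬ Satisfiable (U k)) ∧
      (∀ k, Narrow (Nat.log 2 m) (P k)) ∧ (∀ k, Narrow (Nat.log 2 m) (U k)) := by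
    obtain ⟨κ, hκ, hκne, P, U, hP1, hU1, hP2, hU2, -⟩ :=
      tradeoff_avg (n := n) (m := m) (L := 1) (r := 0) hn2 (by omega) (by norm_num) (by omega)
    have hlog : 1 ≤ Nat.log 2 m := Nat.log_pos (by norm_num) (by omega)
    exact ⟨κ, hκ, hκne, P, U, hP1, hU1, fun k => (hP2 k).mono hlog, fun k => (hU2 k).mono hlog⟩
  rcases lt_or_ge B 0 with hB0 | hB0
  · -- no circuits
    obtain ⟨κ, hκ, hκne, P, U, hP1, hU1, hP2, hU2⟩ := htriv
    refine ⟨κ, hκ, hκne, P, U, hP1, hU1, hP2, hU2, fun s q C hneg _ => ?_⟩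
    exfalso
    have h1 : (0 : ℝ) ≤ (C.negs : ℝ) + q := by positivity
    linarith
  rcases lt_or_ge D (67 * x) with hDx | hDx
  · -- the exponent is negative
    obtain ⟨κ, hκ, hκne, P, U, hP1, hU1, hP2, hU2⟩ := htriv
    refine ⟨κ, hκ, hκne, P, U, hP1, hU1, hP2, hU2, fun s q C _ _ => ?_⟩
    have h1 : 1 ≤ s := by
      have := C.out.2
      omega
    have h2 : (1 : ℝ) ≤ s := by exact_mod_cast h1
    refine le_trans (Real.rpow_le_one_of_one_le_of_nonpos (by norm_num) ?_) h2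
    have h3 : 1 ≤ 67 * x / D := by
      rw [le_div_iff₀ hD]
      linarith
    nlinarith
  obtain ⟨L, hL⟩ : ∃ L, L = min (Nat.log 2 m) (Nat.sqrt n) := ⟨_, rfl⟩
  have hLm : L ≤ Nat.log 2 m := by
    rw [hL]
    exact min_le_left _ _
  have hL1 : 2 ^ L ≤ m :=
    le_trans (Nat.pow_le_pow_right (by norm_num) hLm) (Nat.pow_log_le_self 2 hmpos.ne')
  have hL2 : L ^ 2 ≤ n := by
    have h1 : L ≤ Nat.sqrt n := by
      rw [hL]
      exact min_le_right _ _
    exact (Nat.pow_le_pow_left h1 2).trans (Nat.sqrt_le' n)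
  have h1 : Real.logb 2 m < Nat.log 2 m + 1 := by
    rw [Real.logb_lt_iff_lt_rpow (by norm_num) hmR]
    have h2 : m < 2 ^ (Nat.log 2 m + 1) := Nat.lt_pow_succ_log_self (by norm_num) m
    have h3 : (m : ℝ) < 2 ^ (Nat.log 2 m + 1) := by exact_mod_cast h2
    rw [← Real.rpow_natCast] at h3
    push_cast at h3
    exact h3
  have h2 : Real.sqrt n < Nat.sqrt n + 1 := by
    rw [Real.sqrt_lt' (by positivity)]
    have h3 : n < (Nat.sqrt n + 1) ^ 2 := Nat.lt_succ_sqrt' n
    exact_mod_cast h3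
  have hlog2 : Real.logb 2 (2 * m * n) = 1 + Real.logb 2 m + x := by
    rw [Real.logb_mul (by positivity) (by positivity), Real.logb_mul (by norm_num) hmR.ne',
      Real.logb_self_eq_one (by norm_num)]
  have hmin : min (Real.logb 2 (2 * m * n)) (Real.sqrt n) ≤ L + 2 + x := by
    rw [hL, Nat.cast_min]
    rcases le_total (Nat.log 2 m : ℝ) (Nat.sqrt n : ℝ) with h3 | h3
    · rw [min_eq_left h3]
      refine (min_le_left _ _).trans ?_
      rw [hlog2]
      linarith
    · rw [min_eq_right h3]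
      refine (min_le_right _ _).trans ?_
      linarith
  obtain ⟨r, hr⟩ : ∃ r, r = ⌊B⌋₊ := ⟨_, rfl⟩
  have hr1 : (r : ℝ) ≤ B := by
    rw [hr]
    exact Nat.floor_le hB0
  have hgap : D - 3 * x ≤ (L : ℝ) - r := by linarith
  have hgap0 : 0 < (L : ℝ) - r := by linarith
  have hrL : r < L := by
    have : (r : ℝ) < L := by linarith
    exact_mod_cast this
  obtain ⟨κ, hκ, hκne, P, U, hP1, hU1, hP2, hU2, hmain⟩ := tradeoff_avg hn2 hL2 hrL hL1
  refine ⟨κ, hκ, hκne, P, U, hP1, hU1, fun k => (hP2 k).mono hLm, fun k => (hU2 k).mono hLm,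
    fun s q C hneg hadv => ?_⟩
  have hneg2 : C.negs + q ≤ r := by
    rw [hr]
    refine Nat.le_floor ?_
    push_cast
    exact hneg
  refine le_trans (Real.rpow_le_rpow_of_exponent_le (by norm_num) ?_) (hmain s q C hneg2 hadv)
  have h6 : 64 * x / ((L : ℝ) - r) ≤ 67 * x / D := by
    rw [div_le_div_iff₀ hgap0 hD]
    have h7 : 67 * x * (D - 3 * x) ≤ 67 * x * ((L : ℝ) - r) :=
      mul_le_mul_of_nonneg_left hgap (by linarith)
    nlinarith
  rw [mul_comm]
  exact mul_le_mul_of_nonneg_left (by linarith) (by linarith)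

end Pool.Agent.H40.NG
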